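import Mathlib
import Pool.Agent.Helper761.Omega1

/-!
# A non-metrizable compact group determined by all its ω-bounded dense subgroups
-/

set_option autoImplicit false
set_option linter.style.haveILetI false

namespace Pool.Agent.Results.MP_04f724_gt.Determined

open Set Pool.Agent.Helper761.Om

/-- A space is ω-bounded if its countable subsets have compact closures. -/
def OmegaBounded (X : Type) [TopologicalSpace X] : Prop :=
  ∀ Q : Set X, Q.Countable → IsCompact (closure Q)

/-- The inclusion of a subgroup as a continuous homomorphism. -/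
def incl {G : Type} [CommGroup G] [TopologicalSpace G] (H : Subgroup G) : H →ₜ* G :=
  ⟨H.subtype, continuous_subtype_val⟩

/-- The subgroup `H` determines the group `G`: the restriction map from the dual group of `G` to
the dual group of `H` (both with the compact-open topology) is a homeomorphism. -/
def Determines {G : Type} [CommGroup G] [TopologicalSpace G] (H : Subgroup G) : Prop :=
  IsHomeomorph (PontryaginDual.map (incl H))

/-- The group with two elements. -/
abbrev Z2 : Type := Multiplicative (ZMod 2)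

/-- The nontrivial element. -/
def tt : Z2 := Multiplicative.ofAdd 1

theorem z2_cases (z : Z2) : z = 1 ∨ z = tt := by
  revert z
  decide

theorem tt_ne : tt ≠ 1 := by decide

theorem z2_sq (z : Z2) : z * z = 1 := by
  revert z
  decide

variable {ι : Type}

theorem isOpen_eq_coord (y : ι → Z2) (i : ι) : IsOpen {x : ι → Z2 | x i = y i} := by
  have h1 : IsOpen ({y i} : Set Z2) := isOpen_discrete _
  exact h1.preimage (continuous_apply (A := fun _ : ι => Z2) i)

theorem isClosed_eq_coord (y : ι → Z2) (i : ι) : IsClosed {x : ι → Z2 | x i = y i} := by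
  have h1 : IsClosed ({y i} : Set Z2) := isClosed_discrete _
  exact h1.preimage (continuous_apply (A := fun _ : ι => Z2) i)

theorem isOpen_cyl (F : Finset ι) (y : ι → Z2) : IsOpen {x : ι → Z2 | ∀ i ∈ F, x i = y i} := by
  have : {x : ι → Z2 | ∀ i ∈ F, x i = y i} = ⋂ i ∈ F, {x | x i = y i} := by
    ext x
    simp
  rw [this]
  exact isOpen_biInter_finset fun i _ => isOpen_eq_coord y i

theorem exists_cyl {U : Set (ι → Z2)} (hU : IsOpen U) {y : ι → Z2} (hy : y ∈ U) :
    ∃ F : Finset ι, ∀ x : ι → Z2, (∀ i ∈ F, x i = y i) → x ∈ U := by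
  obtain ⟨F, u, hu, hFU⟩ := isOpen_pi_iff.1 hU y hy
  refine ⟨F, fun x hx => hFU fun i hi => ?_⟩
  rw [hx i hi]
  exact (hu i hi).2

theorem dense_cyl {H : Subgroup (ι → Z2)} (hH : Dense (H : Set (ι → Z2))) (F : Finset ι)
    (y : ι → Z2) : ∃ h ∈ H, ∀ i ∈ F, h i = y i := by
  obtain ⟨h, h1, h2⟩ := hH.exists_mem_open (isOpen_cyl F y) ⟨y, fun _ _ => rfl⟩
  exact ⟨h, h1, h2⟩

/-- the neighbourhood of one in the circle -/
def W : Set Circle := {z | 0 < (z : ℂ).re}

theorem isOpen_W : IsOpen W :=
  isOpen_lt continuous_const (Complex.continuous_re.comp continuous_subtype_val)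

theorem one_mem_W : (1 : Circle) ∈ W := by simp [W]

theorem eq_one_of_W {z : Circle} (h : z * z = 1) (hW : z ∈ W) : z = 1 := by
  have h1 : (z : ℂ) * z = 1 := by
    have := congrArg (fun w : Circle => (w : ℂ)) h
    simpa using this
  have h2 : ((z : ℂ) - 1) * (z + 1) = 0 := by linear_combination h1
  rcases mul_eq_zero.1 h2 with h3 | h3
  · exact Circle.ext (by simpa using sub_eq_zero.1 h3)
  · have h4 : (z : ℂ) = -1 := by linear_combination h3
    have h5 : 0 < (z : ℂ).re := hW
    rw [h4] at h5
    norm_num at h5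

variable {H : Subgroup (ι → Z2)}

theorem chi_sq (χ : PontryaginDual H) (h : H) : χ h * χ h = 1 := by
  rw [← map_mul]
  have : h * h = 1 := by
    apply Subtype.ext
    funext i
    exact z2_sq _
  rw [this, map_one]

/-- characters depend on finitely many coordinates -/
theorem chi_fin (χ : PontryaginDual H) :
    ∃ F : Finset ι, ∀ h : H, (∀ i ∈ F, (h : ι → Z2) i = 1) → χ h = 1 := by
  have h1 : IsOpen (χ ⁻¹' W) := isOpen_W.preimage (map_continuous χ)
  obtain ⟨U, hU, hUW⟩ := isOpen_induced_iff.1 h1
  have h2 : (1 : ι → Z2) ∈ U := by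
    have : (1 : H) ∈ χ ⁻¹' W := by
      rw [mem_preimage, map_one]
      exact one_mem_W
    rw [← hUW] at this
    exact this
  obtain ⟨F, hF⟩ := exists_cyl hU h2
  refine ⟨F, fun h hh => eq_one_of_W (chi_sq χ h) ?_⟩
  have h3 : h ∈ (↑) ⁻¹' U := hF h hh
  rw [hUW] at h3
  exact h3

/-- characters of a dense subgroup extend -/
theorem surj (hH : Dense (H : Set (ι → Z2))) :
    Function.Surjective (PontryaginDual.map (incl H)) := by
  intro χ
  obtain ⟨F, hF⟩ := chi_fin χ
  choose h hhH hh using dense_cyl hH F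
  have key : ∀ (x : ι → Z2) (g : H), (∀ i ∈ F, (g : ι → Z2) i = x i) → χ g = χ ⟨h x, hhH x⟩ := by
    intro x g hg
    have h1 : χ (g * (⟨h x, hhH x⟩ : H)⁻¹) = 1 := by
      refine hF _ fun i hi => ?_
      change (g : ι → Z2) i * (h x i)⁻¹ = 1
      rw [hg i hi, hh x i hi, mul_inv_cancel]
    rw [map_mul, map_inv, mul_inv_eq_one] at h1
    exact h1
  let ψ : (ι → Z2) →ₜ* Circle :=
    { toFun := fun x => χ ⟨h x, hhH x⟩
      map_one' := by
        rw [← key 1 1 fun _ _ => rfl, map_one]
      map_mul' := fun x y => by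
        rw [← map_mul]
        refine (key (x * y) _ fun i hi => ?_).symm
        change h x i * h y i = x i * y i
        rw [hh x i hi, hh y i hi]
      continuous_toFun := by
        refine continuous_iff_continuousAt.2 fun x => ?_
        refine Filter.Tendsto.congr' ?_ tendsto_const_nhds
        refine Filter.mem_of_superset ((isOpen_cyl F x).mem_nhds fun _ _ => rfl) fun y hy => ?_
        refine (key y _ fun i hi => ?_)
        change h x i = y i
        rw [hh x i hi, hy i hi] }
  refine ⟨ψ, ?_⟩
  ext g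
  congr 1
  exact (key g g fun _ _ => rfl).symm

theorem inj (hH : Dense (H : Set (ι → Z2))) :
    Function.Injective (PontryaginDual.map (incl H)) := by
  intro φ ψ h
  apply PontryaginDual.ext
  have h1 : (φ : (ι → Z2) → Circle) = ψ := by
    refine Continuous.ext_on hH (map_continuous φ) (map_continuous ψ) ?_
    intro x hx
    have h2 := congrArg (fun χ : PontryaginDual H => χ ⟨x, hx⟩) h
    exact h2
  exact fun a => congrFun h1 a

variable [LinearOrder ι] [WellFoundedLT ι]

theorem discrete_dual (hc : ∀ a : ι, (Iio a).Countable)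
    (hH : Dense (H : Set (ι → Z2))) (hb : OmegaBounded H) :
    DiscreteTopology (PontryaginDual H) := by
  classical
  -- a countable family of patterns
  have hpat : ∀ p : Finset ι × Finset ι, ∃ h : H, ∀ i ∈ p.1,
      (h : ι → Z2) i = if i ∈ p.2 then tt else 1 := by
    intro p
    obtain ⟨h, h1, h2⟩ := dense_cyl hH p.1 (fun i => if i ∈ p.2 then tt else 1)
    exact ⟨⟨h, h1⟩, h2⟩
  choose d hd using hpat
  let P : ι → Set (Finset ι × Finset ι) := fun γ => {p | (p.1 : Set ι) ⊆ Iic γ ∧
    (p.2 : Set ι) ⊆ Iic γ}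
  have hPc : ∀ γ, (P γ).Countable := by
    intro γ
    have h1 : (Iic γ).Countable := by
      rw [← Iio_insert]
      exact (hc γ).insert γ
    have h2 : {F : Finset ι | (F : Set ι) ⊆ Iic γ}.Countable := by
      have := h1.to_subtype
      have h3 : {F : Finset ι | (F : Set ι) ⊆ Iic γ} ⊆
          range (fun F : Finset (Iic γ) => F.map (Function.Embedding.subtype _)) := by
        intro F hF
        refine ⟨F.subtype (· ∈ Iic γ), ?_⟩
        exact Finset.subtype_map_of_mem fun i hi => hF hi
      exact (countable_range _).mono h3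
    refine (h2.prod h2).mono ?_
    rintro ⟨A, B⟩ hp
    exact hp
  let K : ι → Set (ι → Z2) := fun γ => closure ((fun p => (d p : ι → Z2)) '' P γ)
  have hKcl : ∀ γ, IsClosed (K γ) := fun γ => isClosed_closure
  have hKmono : ∀ γ γ', γ ≤ γ' → K γ ⊆ K γ' := by
    intro γ γ' h
    refine closure_mono (image_mono ?_)
    exact fun p hp => ⟨hp.1.trans (Iic_subset_Iic.2 h), hp.2.trans (Iic_subset_Iic.2 h)⟩
  have hKH : ∀ γ, K γ ⊆ H := by
    intro γ
    have h1 := hb (d '' P γ) ((hPc γ).image d)
    have h2 : IsCompact ((↑) '' closure (d '' P γ) : Set (ι → Z2)) :=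
      h1.image continuous_subtype_val
    have h3 : K γ ⊆ (↑) '' closure (d '' P γ) := by
      refine closure_minimal ?_ h2.isClosed
      rintro _ ⟨p, hp, rfl⟩
      exact ⟨d p, subset_closure ⟨p, hp, rfl⟩, rfl⟩
    refine h3.trans ?_
    rintro _ ⟨x, -, rfl⟩
    exact x.2
  have hKproj : ∀ γ (y : ι → Z2), ∃ x ∈ K γ, ∀ i ≤ γ, x i = y i := by
    intro γ y
    have h1 := (hKcl γ).isCompact.inter_iInter_nonempty
      (fun i : Iic γ => {x : ι → Z2 | x i = y i}) (fun i => isClosed_eq_coord y i) (fun u => by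
        let A : Finset ι := u.map (Function.Embedding.subtype _)
        let B : Finset ι := A.filter (fun i => y i = tt)
        have hA : (A : Set ι) ⊆ Iic γ := by
          intro i hi
          obtain ⟨j, _, rfl⟩ := Finset.mem_map.1 hi
          exact j.2
        have hB : (B : Set ι) ⊆ Iic γ := fun i hi => hA (Finset.mem_filter.1 hi).1
        refine ⟨d (A, B), subset_closure ⟨(A, B), ⟨hA, hB⟩, rfl⟩, ?_⟩
        rw [mem_iInter₂]
        intro i hi
        have hiA : (i : ι) ∈ A := Finset.mem_map.2 ⟨i, hi, rfl⟩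
        have h2 := hd (A, B) i hiA
        change (d (A, B) : ι → Z2) i = y i
        rw [h2]
        change (if (i : ι) ∈ B then tt else 1) = y i
        by_cases hy : y i = tt
        · have h3 : (i : ι) ∈ B := Finset.mem_filter.2 ⟨hiA, hy⟩
          rw [if_pos h3, hy]
        · have h3 : (i : ι) ∉ B := fun h => hy (Finset.mem_filter.1 h).2
          rw [if_neg h3]
          exact ((z2_cases (y i)).resolve_right hy).symm)
    obtain ⟨x, hx1, hx2⟩ := h1
    rw [mem_iInter] at hx2
    exact ⟨x, hx1, fun i hi => hx2 ⟨i, hi⟩⟩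
  let C : Set (ι → Z2) := {x | x = 1 ∨ ∃ γ, x ∈ K γ ∧ ∀ i < γ, x i = 1}
  have hCcl : IsClosed C := by
    rw [← closure_subset_iff_isClosed]
    intro y hy
    by_cases hy1 : y = 1
    · exact Or.inl hy1
    right
    have hne : {i | y i ≠ 1}.Nonempty := by
      by_contra h
      rw [not_nonempty_iff_eq_empty, eq_empty_iff_forall_notMem] at h
      exact hy1 (funext fun i => not_not.1 (h i))
    obtain ⟨i, hi, hmin⟩ := WellFounded.has_min (wellFounded_lt (α := ι)) _ hne
    refine ⟨i, ?_, fun j hj => by_contra fun h => hmin j h hj⟩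
    rw [← (hKcl i).closure_eq, mem_closure_iff]
    intro U hU hyU
    obtain ⟨x, ⟨hxU, hxi⟩, hxC⟩ := mem_closure_iff.1 hy _ (hU.inter (isOpen_eq_coord y i))
      ⟨hyU, rfl⟩
    have hxi' : x i ≠ 1 := by
      rw [show x i = y i from hxi]
      exact hi
    rcases hxC with h | ⟨γ, hγ, h1⟩
    · rw [h] at hxi'
      exact absurd rfl hxi'
    · refine ⟨x, hxU, hKmono γ i ?_ hγ⟩
      by_contra hcon
      exact hxi' (h1 i (not_le.1 hcon))
  have hCH : C ⊆ H := by
    rintro x (rfl | ⟨γ, hγ, -⟩)
    · exact one_mem H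
    · exact hKH γ hγ
  let C' : Set H := (↑) ⁻¹' C
  have hC' : IsCompact C' := by
    rw [Subtype.isCompact_iff]
    have : ((↑) '' C' : Set (ι → Z2)) = C := by
      ext x
      constructor
      · rintro ⟨g, hg, rfl⟩
        exact hg
      · intro hx
        exact ⟨⟨x, hCH hx⟩, hx, rfl⟩
    rw [this]
    exact hCcl.isCompact
  -- the neighbourhood of the trivial character
  have hopen : IsOpen {χ : PontryaginDual H | MapsTo χ C' W} := by
    have h1 : IsOpen {f : C(H, Circle) | MapsTo f C' W} :=
      ContinuousMap.isOpen_setOfPred_mapsTo hC' isOpen_W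
    exact h1.preimage (ContinuousMonoidHom.isInducing_toContinuousMap H Circle).continuous
  have hone : {χ : PontryaginDual H | MapsTo χ C' W} = {1} := by
    apply Subset.antisymm
    · intro χ hχ
      by_contra hne
      -- a minimal finite set of coordinates
      obtain ⟨F, hF, hFmin⟩ := WellFounded.has_min (wellFounded_lt (α := Finset ι))
        {F | ∀ h : H, (∀ i ∈ F, (h : ι → Z2) i = 1) → χ h = 1} (chi_fin χ)
      have hFne : F.Nonempty := by
        by_contra h
        rw [Finset.not_nonempty_iff_eq_empty] at h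
        subst h
        apply hne
        apply PontryaginDual.ext
        intro a
        exact hF a (by simp)
      let m := F.max' hFne
      have hm : m ∈ F := F.max'_mem hFne
      have h1 : ¬ ∀ h : H, (∀ i ∈ F.erase m, (h : ι → Z2) i = 1) → χ h = 1 := fun h =>
        hFmin (F.erase m) h (Finset.erase_ssubset hm)
      push Not at h1
      obtain ⟨h, hh, hχh⟩ := h1
      obtain ⟨x, hx, hxm⟩ := hKproj m (fun i => if i = m then tt else 1)
      have hxlt : ∀ i < m, x i = 1 := fun i hi => by rw [hxm i hi.le, if_neg hi.ne]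
      have hxm' : x m = tt := by rw [hxm m le_rfl, if_pos rfl]
      have hxC : x ∈ C := Or.inr ⟨m, hx, hxlt⟩
      have hhm : (h : ι → Z2) m = tt := by
        refine (z2_cases _).resolve_left fun hm1 => hχh (hF h fun i hi => ?_)
        by_cases him : i = m
        · rw [him, hm1]
        · exact hh i (Finset.mem_erase.2 ⟨him, hi⟩)
      have h2 : χ (⟨x, hCH hxC⟩ * h⁻¹) = 1 := by
        refine hF _ fun i hi => ?_
        change x i * ((h : ι → Z2) i)⁻¹ = 1
        by_cases him : i = m
        · rw [him, hxm', hhm, mul_inv_cancel]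
        · have hlt : i < m := lt_of_le_of_ne (F.le_max' i hi) him
          rw [hxlt i hlt, hh i (Finset.mem_erase.2 ⟨him, hi⟩), inv_one, mul_one]
      rw [map_mul, map_inv, mul_inv_eq_one] at h2
      have h3 : χ ⟨x, hCH hxC⟩ ∈ W := hχ (show (⟨x, hCH hxC⟩ : H) ∈ C' from hxC)
      rw [h2] at h3
      exact hχh (eq_one_of_W (chi_sq χ h) h3)
    · rintro χ hχ x _
      rw [mem_singleton_iff.1 hχ]
      exact one_mem_W
  rw [hone] at hopen
  exact discreteTopology_of_isOpen_singleton_one hopen

theorem not_metrizable (hu : ∀ A : Set ι, A.Countable → ∃ b, ∀ a ∈ A, a < b) :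
    ¬ TopologicalSpace.MetrizableSpace (ι → Z2) := by
  classical
  intro h
  obtain ⟨U, hU⟩ := (nhds (1 : ι → Z2)).exists_antitone_basis
  have h1 : ∀ n, ∃ F : Finset ι, ∀ x : ι → Z2, (∀ i ∈ F, x i = 1) → x ∈ U n := by
    intro n
    obtain ⟨V, hVU, hV, h1V⟩ := mem_nhds_iff.1 (hU.mem n)
    obtain ⟨F, hF⟩ := exists_cyl hV h1V
    exact ⟨F, fun x hx => hVU (hF x hx)⟩
  choose F hF using h1
  obtain ⟨b, hb⟩ := hu (⋃ n, (F n : Set ι)) (countable_iUnion fun n => (F n).countable_toSet)
  have h2 : ∀ n, Pi.mulSingle b tt ∈ U n := by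
    intro n
    refine hF n _ fun i hi => ?_
    have : i ≠ b := (hb i (mem_iUnion_of_mem n hi)).ne
    rw [Pi.mulSingle_eq_of_ne this]
  have h3 : {x : ι → Z2 | x b = 1} ∈ nhds (1 : ι → Z2) :=
    (isOpen_eq_coord 1 b).mem_nhds rfl
  obtain ⟨n, hn⟩ := hU.mem_iff.1 h3
  have h4 : (Pi.mulSingle b tt : ι → Z2) b = 1 := hn (h2 n)
  rw [Pi.mulSingle_eq_same] at h4
  exact tt_ne h4

/-- There is a non-metrizable compact Hausdorff abelian group that is determined by each of its
ω-bounded dense subgroups. -/
theorem result :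
    ∃ (G : Type) (_ : CommGroup G) (_ : TopologicalSpace G) (_ : IsTopologicalGroup G),
      CompactSpace G ∧ T2Space G ∧ ¬ TopologicalSpace.MetrizableSpace G ∧
      ∀ H : Subgroup G, Dense (H : Set G) → OmegaBounded H → Determines H := by
  obtain ⟨ι, i1, i2, hc, hu⟩ := exists_omega1
  refine ⟨ι → Z2, inferInstance, inferInstance, inferInstance, inferInstance, inferInstance,
    not_metrizable hu, fun H hd hb => ?_⟩
  have := discrete_dual hc hd hb
  refine ⟨map_continuous _, fun U _ => isOpen_discrete _, inj hd, surj hd⟩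

end Pool.Agent.Results.MP_04f724_gt.Determined
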